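import Pool.Agent.Run7.h432.EP.Pair

set_option autoImplicit false

/-!
# Digits of integer combinations of `π + e` and `π e` with growing coefficients

The linear complexity `N_b(y; L)` of the first `L` digits of `y` in base `b` is the least order of a
linear recurrence over `ℚ` satisfied by these digits. A number `y` is *small at the scale `X`* if
`N_b(y; L) log b < κ X - C log b` for some base `b` and some `L` with `L log b ≥ X`.

(1) Let `y_0, …, y_(n-1)` be real numbers with `c₀ e ^ n = ∑ c_j y_j e ^ j` for integers `c_j` and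
`c₀ ≠ 0`, for example `n = 2`, `y = (π e, π + e)`, and let `n (n + 1) (κ + δ) < 1`. At every scale `X`
the integer vectors `a` with `|a_j| ≤ e ^ (δ X)` for which `∑ a_j y_j` is small modulo an integer lie
in a proper subspace of `ℚ ^ n`; `C` depends only on `n`, `κ`, `δ`, the `c_j` and a bound for the
`|y_j|`.

(2) Let `n = 2`. Some nonzero form `A y_0 + B y_1` is an integer if and only if at every large
scale `X` some nonzero form with `|A|, |B| ≤ e ^ (δ X)` is small.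

(3) Let `1, t, t', t t'` be linearly independent over `ℚ`. Then `(t e, t + e)` or `(t' e, t' + e)` has
no small nonzero form with `|A|, |B| ≤ e ^ (δ X)` at arbitrarily large scales `X`. So this holds for
`(π ^ j e, π ^ j + e)` for all `j ≥ 1` with at most one exception.
-/

namespace Pool.Agent.Results.MP_a49cf6_nt.GrowingCombinations

open Finset Run7.h432.EP

/-- the `i`-th digit of `x` after the point in base `b` -/
noncomputable def digit (b : ℕ) (x : ℝ) (i : ℕ) : ℤ := ⌊x * (b : ℝ) ^ i⌋ % (b : ℤ)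

/-- The terms `s_1, …, s_L` satisfy the linear recurrence
`s_(i+m) = c_0 s_i + … + c_(m-1) s_(i+m-1)` for `1 ≤ i ≤ L - m`. -/
def Recurrence (s : ℕ → ℤ) (c : ℕ → ℚ) (L m : ℕ) : Prop :=
  ∀ i : ℕ, 1 ≤ i → i + m ≤ L → (s (i + m) : ℚ) = ∑ j ∈ range m, c j * (s (i + j) : ℚ)

/-- the linear complexity of the first `L` digits of `x` in base `b` -/
noncomputable def complexity (b : ℕ) (x : ℝ) (L : ℕ) : ℕ :=
  sInf {m | ∃ c : ℕ → ℚ, Recurrence (digit b x) c L m}

/-- `N_b(y; L) log b < κ X - C log b` for some base `b` and some `L` with `L log b ≥ X` -/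
def Small (κ C X y : ℝ) : Prop :=
  ∃ b L : ℕ, 2 ≤ b ∧ X ≤ L * Real.log b ∧ complexity b y L * Real.log b < κ * X - C * Real.log b

theorem recurrence (b : ℕ) (x : ℝ) (L : ℕ) :
    ∃ c : ℕ → ℚ, Recurrence (digit b x) c L (complexity b x L) := by
  have h : L ∈ {m | ∃ c : ℕ → ℚ, Recurrence (digit b x) c L m} := by
    refine ⟨fun _ => 0, fun i h1 h2 => ?_⟩
    omega
  exact Nat.sInf_mem ⟨L, h⟩

theorem smallR {κ C X y : ℝ} (h : Small κ C X y) : SmallR κ C X y := by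
  obtain ⟨b, L, hb, hX, h⟩ := h
  refine ⟨b, L, complexity b y L, hb, hX, ?_, h⟩
  obtain ⟨c, hc⟩ := recurrence b y L
  refine ⟨c, fun i hi => ?_⟩
  have h := hc (i + 1) (by omega) (by omega)
  have e1 : ∀ j, i + 1 + j = i + j + 1 := fun j => by ring
  simp only [e1] at h
  exact h

/-- small complexities of integers -/
theorem small_int {κ C : ℝ} (hκ : 0 < κ) (hC : 0 ≤ C) (a : ℤ) :
    ∃ X₀ : ℝ, ∀ X : ℝ, X₀ ≤ X → Small κ C X a := by
  refine ⟨C * Real.log 2 / κ + 1, fun X hX => ?_⟩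
  have hl : 0 < Real.log 2 := Real.log_pos (by norm_num)
  obtain ⟨L, hL⟩ := exists_nat_ge (X / Real.log 2)
  refine ⟨2, L, le_rfl, ?_, ?_⟩
  · push_cast
    rwa [div_le_iff₀ hl] at hL
  · have h0 : complexity 2 (a : ℝ) L = 0 := by
      refine Nat.le_zero.1 (Nat.sInf_le ⟨fun _ => 0, fun i hi _ => ?_⟩)
      rw [range_zero, sum_empty]
      have h1 : digit 2 (a : ℝ) (i + 0) = 0 := by
        unfold digit
        have h2 : (a : ℝ) * ((2 : ℕ) : ℝ) ^ (i + 0) = ((a * 2 ^ i : ℤ) : ℝ) := by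
          push_cast
          rw [add_zero]
        rw [h2, Int.floor_intCast]
        obtain ⟨k, rfl⟩ : ∃ k, i = k + 1 := ⟨i - 1, by omega⟩
        push_cast
        rw [pow_succ, ← mul_assoc]
        exact Int.mul_emod_left _ _
      rw [h1]
      simp
    rw [h0]
    push_cast
    rw [zero_mul]
    have h3 : κ * (C * Real.log 2 / κ + 1) ≤ κ * X := mul_le_mul_of_nonneg_left hX hκ.le
    have h4 : κ * (C * Real.log 2 / κ + 1) = C * Real.log 2 + κ := by
      field_simp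
    linarith

/-- some nonzero form `A u + B v` with `|A|, |B| ≤ e ^ (δ X)` is small at the scale `X` -/
def SmallForm (κ δ C X u v : ℝ) : Prop :=
  ∃ A B : ℤ, ¬ (A = 0 ∧ B = 0) ∧ |(A : ℝ)| ≤ Real.exp (δ * X) ∧ |(B : ℝ)| ≤ Real.exp (δ * X) ∧
    Small κ C X (A * u + B * v)

theorem result :
    (∀ (n : ℕ) (c : Fin n → ℤ) (c₀ : ℤ), 1 ≤ n → c₀ ≠ 0 → ∀ T κ δ : ℝ, 0 < κ → 0 ≤ δ →
      (n : ℝ) * (n + 1) * (κ + δ) < 1 → ∃ C : ℝ, ∀ y : Fin n → ℝ, (∀ j, |y j| ≤ T) →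
      (c₀ : ℝ) * Real.exp 1 ^ n = ∑ j, (c j : ℝ) * y j * Real.exp 1 ^ (j : ℕ) →
      ∀ X : ℝ, 0 ≤ X → ∀ (A : Matrix (Fin n) (Fin n) ℤ) (G : Fin n → ℤ),
        (∀ i j, |(A i j : ℝ)| ≤ Real.exp (δ * X)) →
        (∀ i, Small κ C X (∑ j, (A i j : ℝ) * y j + G i)) → A.det = 0) ∧
    (∀ κ δ : ℝ, 0 < κ → 0 < δ → 6 * (κ + δ) < 1 → ∃ C : ℝ,
      (∀ a b c₀ : ℤ, c₀ ≠ 0 → ∀ u v : ℝ,
        (c₀ : ℝ) * Real.exp 1 ^ 2 = a * u + b * v * Real.exp 1 →
        ((∃ A B G : ℤ, ¬ (A = 0 ∧ B = 0) ∧ (A : ℝ) * u + B * v = G) ↔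
          ∃ X₀ : ℝ, ∀ X : ℝ, X₀ ≤ X → SmallForm κ δ C X u v)) ∧
      (∀ t t' : ℝ, (∀ k l m n : ℤ, (k : ℝ) + l * t + m * t' + n * (t * t') = 0 →
          k = 0 ∧ l = 0 ∧ m = 0 ∧ n = 0) →
        (∀ X₀ : ℝ, ∃ X : ℝ, X₀ ≤ X ∧ ¬ SmallForm κ δ C X (t * Real.exp 1) (t + Real.exp 1)) ∨
        (∀ X₀ : ℝ, ∃ X : ℝ, X₀ ≤ X ∧
          ¬ SmallForm κ δ C X (t' * Real.exp 1) (t' + Real.exp 1))) ∧
      (∀ j k : ℕ, 1 ≤ j → 1 ≤ k → j ≠ k →
        (∀ X₀ : ℝ, ∃ X : ℝ, X₀ ≤ X ∧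
          ¬ SmallForm κ δ C X (Real.pi ^ j * Real.exp 1) (Real.pi ^ j + Real.exp 1)) ∨
        (∀ X₀ : ℝ, ∃ X : ℝ, X₀ ≤ X ∧
          ¬ SmallForm κ δ C X (Real.pi ^ k * Real.exp 1) (Real.pi ^ k + Real.exp 1)))) := by
  refine ⟨?_, ?_⟩
  · intro n c c₀ hn hc₀ T κ δ hκ hδ h
    have hnR : (1 : ℝ) ≤ n := by exact_mod_cast hn
    set m : ℝ := (n : ℝ) * (n + 1) with hm
    have hm0 : 0 < m := by positivity
    set s := 1 - m * (κ + δ) with hs
    have hs0 : 0 < s := by linarith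
    have hκ' : κ < κ + s / (2 * m) := by
      have : 0 < s / (2 * m) := by positivity
      linarith
    obtain ⟨C₁, hC₁, h1⟩ := app_of_small hκ hκ'
    obtain ⟨X₀, hX₀, h2⟩ := det_zero n c c₀ hc₀ T (κ + s / (2 * m)) (1 - (κ + s / (2 * m))) δ
      (by linarith) hδ (by
        have e1 : m * (s / (2 * m)) = s / 2 := by field_simp
        have e2 : ((n : ℝ) ^ 2 + n - 1) * (κ + s / (2 * m)) + ((n : ℝ) ^ 2 + n) * δ =
            m * (κ + δ) + m * (s / (2 * m)) - (κ + s / (2 * m)) := by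
          rw [hm]
          ring
        rw [e2, e1]
        linarith) hn
    refine ⟨C₁ + κ * X₀ / Real.log 2, ?_⟩
    intro y hy hrel X hX A G hA hS
    have hl : 0 < Real.log 2 := Real.log_pos (by norm_num)
    have hC : C₁ ≤ C₁ + κ * X₀ / Real.log 2 := by
      have : 0 ≤ κ * X₀ / Real.log 2 := by positivity
      linarith
    rcases le_or_gt X₀ X with hXX | hXX
    · refine h2 X hXX y hy hrel A G hA fun i => ?_
      obtain ⟨q, p, hq, hqX, hqy⟩ := h1 _ X _ hC (smallR (hS i))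
      refine ⟨q, p, hq, hqX, hqy.trans (le_of_eq ?_)⟩
      congr 1
      ring
    · exfalso
      obtain ⟨b, L, hb, -, h3⟩ := hS ⟨0, by omega⟩
      have hbR : (2 : ℝ) ≤ b := by exact_mod_cast hb
      have h4 : Real.log 2 ≤ Real.log b := Real.log_le_log (by norm_num) hbR
      have h5 : κ * X₀ / Real.log 2 * Real.log 2 ≤ κ * X₀ / Real.log 2 * Real.log b :=
        mul_le_mul_of_nonneg_left h4 (by positivity)
      rw [div_mul_cancel₀ _ hl.ne'] at h5
      have h6 : 0 ≤ C₁ * Real.log b := by positivity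
      have h7 : κ * X < κ * X₀ := mul_lt_mul_of_pos_left hXX hκ
      have h8 : (0 : ℝ) ≤ complexity b
          (∑ j, (A ⟨0, by omega⟩ j : ℝ) * y j + G ⟨0, by omega⟩) L * Real.log b := by
        positivity
      rw [add_mul] at h3
      linarith
  · intro κ δ hκ hδ h
    set s := 1 - 6 * (κ + δ) with hs
    obtain ⟨C, hC0, h1⟩ := app_of_small (κ' := κ + s / 12) hκ (by linarith)
    have h6 : 6 * (κ + s / 12 + δ) < 1 := by linarith
    have crit : ∀ a b c₀ : ℤ, c₀ ≠ 0 → ∀ u v : ℝ,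
        (c₀ : ℝ) * Real.exp 1 ^ 2 = a * u + b * v * Real.exp 1 →
        ((∃ A B G : ℤ, ¬ (A = 0 ∧ B = 0) ∧ (A : ℝ) * u + B * v = G) ↔
          ∃ X₀ : ℝ, ∀ X : ℝ, X₀ ≤ X → SmallForm κ δ C X u v) := by
      intro a b c₀ hc₀ u v hrel
      constructor
      · rintro ⟨A, B, G, hAB, hG⟩
        obtain ⟨X₀, hX₀⟩ := small_int hκ hC0 G
        refine ⟨max X₀ ((|(A : ℝ)| + |(B : ℝ)|) / δ), fun X hX => ⟨A, B, hAB, ?_, ?_, ?_⟩⟩
        · have h2 : (|(A : ℝ)| + |(B : ℝ)|) / δ ≤ X := (le_max_right _ _).trans hX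
          rw [div_le_iff₀ hδ] at h2
          have h3 := Real.add_one_le_exp (δ * X)
          have h4 := abs_nonneg (B : ℝ)
          linarith
        · have h2 : (|(A : ℝ)| + |(B : ℝ)|) / δ ≤ X := (le_max_right _ _).trans hX
          rw [div_le_iff₀ hδ] at h2
          have h3 := Real.add_one_le_exp (δ * X)
          have h4 := abs_nonneg (A : ℝ)
          linarith
        · rw [hG]
          exact hX₀ X ((le_max_left _ _).trans hX)
      · rintro ⟨X₀, hX₀⟩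
        have hy : ∀ j, |(![u, v] : Fin 2 → ℝ) j| ≤ max |u| |v| := by
          intro j
          fin_cases j
          · exact le_max_left _ _
          · exact le_max_right _ _
        have hrel' : (c₀ : ℝ) * Real.exp 1 ^ 2 =
            ∑ j, ((![a, b] : Fin 2 → ℤ) j : ℝ) * (![u, v] : Fin 2 → ℝ) j *
              Real.exp 1 ^ (j : ℕ) := by
          rw [hrel, Fin.sum_univ_two]
          simp
        exact dep_of_app ![a, b] c₀ hc₀ (max |u| |v|) (κ + s / 12) δ (by linarith) hδ.le h6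
          ![u, v] hy hrel' X₀ (fun X hX => by
            obtain ⟨A, B, hAB, hA, hB, hS⟩ := hX₀ X hX
            exact ⟨A, B, hAB, hA, hB, h1 C X _ le_rfl (smallR hS)⟩)
    have both : ∀ t t' : ℝ, (∀ k l m n : ℤ, (k : ℝ) + l * t + m * t' + n * (t * t') = 0 →
          k = 0 ∧ l = 0 ∧ m = 0 ∧ n = 0) →
        (∀ X₀ : ℝ, ∃ X : ℝ, X₀ ≤ X ∧ ¬ SmallForm κ δ C X (t * Real.exp 1) (t + Real.exp 1)) ∨
        (∀ X₀ : ℝ, ∃ X : ℝ, X₀ ≤ X ∧
          ¬ SmallForm κ δ C X (t' * Real.exp 1) (t' + Real.exp 1)) := by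
      intro t t' hind
      by_contra hcon
      rw [not_or] at hcon
      obtain ⟨g1, g2⟩ := hcon
      push Not at g1 g2
      have key : ∀ t : ℝ, (∃ X₀ : ℝ, ∀ X : ℝ, X₀ ≤ X →
          SmallForm κ δ C X (t * Real.exp 1) (t + Real.exp 1)) →
          ∃ A B G : ℤ, ¬ (A = 0 ∧ B = 0) ∧
            (A : ℝ) * (t * Real.exp 1) + B * (t + Real.exp 1) = G := by
        intro t ht
        refine (crit (-1) 1 1 one_ne_zero (t * Real.exp 1) (t + Real.exp 1) ?_).2 ht
        push_cast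
        ring
      exact not_both hind (key t g1) (key t' g2)
    exact ⟨C, crit, both, fun j k hj hk hjk => both _ _ (pi_ind hj hk hjk)⟩

end Pool.Agent.Results.MP_a49cf6_nt.GrowingCombinations
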