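import Pool.Agent.Run7.h84.TT.Dim3
import Pool.Agent.R347.LW.Ex

/-!
# Linear relations between products of powers of finitely many numbers and exponentials

Let `S` be a set of real numbers which is empty or, more generally, ultra-Liouville, and let `K` be the
field of the complex numbers which are algebraic over `ℚ(S)` (for `S = ∅` the field of algebraic
numbers). Let `l₁, …, l_d` be arbitrary complex numbers and put
`E(α, t) = exp (α + t₁ l₁ + … + t_d l_d)` for `α ∈ K` and rational `t₁, …, t_d`. For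
`l = (log π, e, e log π, π log π)` this is `e ^ α π ^ t₁ (e ^ e) ^ t₂ (π ^ e) ^ t₃ (π ^ π) ^ t₄`, so that
all the numbers `π + e`, `π - e`, `π e`, `π ^ e`, `e ^ e`, `π ^ π` are covered at once.

A minimal relation is a linear relation `∑ c_i E(p_i) = 0` over `K` none of whose proper subsums
vanishes; its difference space is the rational subspace of `K × ℚ ^ d` spanned by the `p_i - p_j`.

1. There are at most `d` minimal relations such that the sum of their difference spaces contains the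
   difference spaces of all minimal relations. So all minimal relations, of any length, have their
   exponent differences in one space of finite dimension.
2. In every sequence of minimal relations in which no difference space is contained in the sum of the
   previous ones there are at most `d` relations.
3. For `d = 1` all minimal relations with at least two different exponents have the same difference
   space.
4. The minimal relations with at most `k` terms have their differences in a space of dimension at most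
   `(k - 1) d`.
5. If `π + e` or `π - e` or `π e` is in `K`, and `e ^ e`, `π ^ e`, `π ^ π` are in `K`, then the numbers
   `α` which occur in a minimal relation between the numbers
   `e ^ α π ^ t₁ (e ^ e) ^ t₂ (π ^ e) ^ t₃ (π ^ π) ^ t₄` have rational differences.
-/

set_option autoImplicit false

namespace Pool.Agent.Results.MP_a49cf6_nt.IndependentRelations

/-- Finitely many elements of `S` always have simultaneous rational approximations closer than the
exponential of minus an arbitrarily large power of the common denominator. -/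
def UltraLiouville (S : Set ℝ) : Prop :=
  ∀ T : Finset ℝ, (T : Set ℝ) ⊆ S → ∀ κ : ℕ, ∃ q : ℕ, 2 ≤ q ∧
    ∀ ξ ∈ T, ∃ p : ℤ, |ξ - p / q| ≤ Real.exp (-((q : ℝ) ^ κ))

/-- the field `K` of the complex numbers which are algebraic over `ℚ(S)` -/
noncomputable abbrev K (S : Set ℝ) :
    IntermediateField (IntermediateField.adjoin ℚ (Complex.ofReal '' S)) ℂ :=
  algebraicClosure (IntermediateField.adjoin ℚ (Complex.ofReal '' S)) ℂ

/-- `E(α, t) = exp (α + ∑ t_j l_j)` -/
noncomputable def E (S : Set ℝ) {d : ℕ} (l : Fin d → ℂ) (p : K S × (Fin d → ℚ)) : ℂ :=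
  Complex.exp ((p.1 : ℂ) + ∑ j, (p.2 j : ℂ) * l j)

/-- a formal linear combination of `n` exponents -/
structure Combination (S : Set ℝ) (d : ℕ) where
  n : ℕ
  coeff : Fin n → K S
  expo : Fin n → K S × (Fin d → ℚ)

/-- a minimal relation: the value is zero and no proper nonempty subsum has the value zero -/
def IsMinimal {S : Set ℝ} {d : ℕ} (l : Fin d → ℂ) (R : Combination S d) : Prop :=
  ∑ i, (R.coeff i : ℂ) * E S l (R.expo i) = 0 ∧
    ∀ t : Finset (Fin R.n), t.Nonempty → ∑ i ∈ t, (R.coeff i : ℂ) * E S l (R.expo i) = 0 →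
      t = Finset.univ

/-- the difference space -/
noncomputable def diffs {S : Set ℝ} {d : ℕ} (R : Combination S d) : Submodule ℚ (K S × (Fin d → ℚ)) :=
  Submodule.span ℚ (Set.range fun p : Fin R.n × Fin R.n => R.expo p.1 - R.expo p.2)

/-- the exponents of `π`, `e ^ e`, `π ^ e`, `π ^ π` -/
noncomputable def lpe : Fin 4 → ℂ :=
  ![(Real.log Real.pi : ℝ), (Real.exp 1 : ℝ), (Real.exp 1 * Real.log Real.pi : ℝ),
    (Real.pi * Real.log Real.pi : ℝ)]

open Run7.h84.TT Module

theorem expV {S : Set ℝ} (hS : UltraLiouville S) {d : ℕ} (l : Fin d → ℂ) :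
    ExpV (K S) (E S l) (LinearMap.ker (LinearMap.snd ℚ (K S) (Fin d → ℚ))) where
  ne := fun v => Complex.exp_ne_zero _
  add := by
    intro v w
    rw [E, E, E, ← Complex.exp_add]
    congr 1
    simp only [Prod.fst_add, Prod.snd_add, Pi.add_apply]
    push_cast
    simp only [add_mul, Finset.sum_add_distrib]
    ring
  ind := by
    intro n z hU hz
    have h0 : ∀ i, z i = LinearMap.inl ℚ (K S) (Fin d → ℚ) (z i).1 := by
      intro i
      have h1 : (z i).2 = 0 := hU i
      apply Prod.ext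
      · rfl
      · rw [h1]
        rfl
    have h1 : LinearIndependent ℚ (fun i => (z i).1) := by
      have h2 : LinearIndependent ℚ (LinearMap.inl ℚ (K S) (Fin d → ℚ) ∘ fun i => (z i).1) := by
        have h3 : (LinearMap.inl ℚ (K S) (Fin d → ℚ) ∘ fun i => (z i).1) = z := by
          funext i
          exact (h0 i).symm
        rw [h3]
        exact hz
      exact h2.of_comp _
    have h2 := Pool.Agent.R347.LW.algInd S hS n (fun i => (z i).1) h1
    have h3 : (fun i => E S l (z i)) = fun i => Complex.exp ((z i).1 : ℂ) := by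
      funext i
      have h4 : (z i).2 = 0 := hU i
      rw [E, h4]
      simp
    rw [h3]
    exact h2

theorem isMinimal_iff {S : Set ℝ} {d : ℕ} (l : Fin d → ℂ) (R : Combination S d) :
    IsMinimal l R ↔ MinRel (K S) (E S l) R.coeff R.expo := Iff.rfl

theorem generators {S : Set ℝ} (hS : UltraLiouville S) {d : ℕ} (l : Fin d → ℂ) :
    ∃ G : List (Combination S d), G.length ≤ d ∧ (∀ R ∈ G, IsMinimal l R) ∧
      ∀ R, IsMinimal l R → diffs R ≤ ⨆ R' ∈ G, diffs R' := by
  have hE := expV hS l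
  by_contra hcon
  push Not at hcon
  have key : ∀ t : ℕ, ∃ G : List (Combination S d), G.length = t ∧ (∀ R ∈ G, IsMinimal l R) ∧
      ∃ W : Submodule ℚ (K S × (Fin d → ℚ)), W = (⨆ R' ∈ G, diffs R') ∧ FiniteDimensional ℚ W ∧
        nu (K S) (E S l) W + t ≤ finrank ℚ W := by
    intro t
    induction t with
    | zero =>
      refine ⟨[], rfl, by simp, ⊥, by simp, inferInstance, ?_⟩
      rw [nu_bot hE]
      simp
    | succ t ih =>
      obtain ⟨G, hG1, hG2, W, hW, hWf, hWn⟩ := ih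
      have htd : t ≤ d := bound hE _ le_rfl W hWn
      obtain ⟨R, hR1, hR2⟩ := hcon G (by omega) hG2
      rw [← hW] at hR2
      refine ⟨R :: G, by simp [hG1], ?_, W ⊔ diffs R, ?_, Submodule.finiteDimensional_sup W (diffSpan R.expo),
        indstep hE W hWn hR1 hR2⟩
      · intro R' hR'
        rcases List.mem_cons.1 hR' with rfl | h
        · exact hR1
        · exact hG2 R' h
      · rw [hW, sup_comm]
        simp only [List.mem_cons, iSup_or, iSup_sup_eq, iSup_iSup_eq_left]
  obtain ⟨G, -, -, W, -, hWf, hWn⟩ := key (d + 1)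
  have := bound hE _ le_rfl W hWn
  omega

theorem min3 {a : Fin 3 → ℂ} (h : a 0 + a 1 + a 2 = 0) (h0 : a 0 ≠ 0) (h1 : a 1 ≠ 0) (h2 : a 2 ≠ 0)
    (t : Finset (Fin 3)) (ht : t.Nonempty) (hs : ∑ i ∈ t, a i = 0) : t = Finset.univ := by
  have e : ∑ i ∈ t, a i = ∑ i, if i ∈ t then a i else 0 := by
    rw [Finset.sum_ite_mem, Finset.univ_inter]
  rw [e, Fin.sum_univ_three] at hs
  have hne : ¬ (0 ∉ t ∧ 1 ∉ t ∧ 2 ∉ t) := by
    rintro ⟨x0, x1, x2⟩
    obtain ⟨i, hi⟩ := ht
    fin_cases i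
    · exact x0 hi
    · exact x1 hi
    · exact x2 hi
  have hall : 0 ∈ t ∧ 1 ∈ t ∧ 2 ∈ t := by
    by_cases x0 : (0 : Fin 3) ∈ t <;> by_cases x1 : (1 : Fin 3) ∈ t <;>
      by_cases x2 : (2 : Fin 3) ∈ t <;> simp only [x0, x1, x2, if_true, if_false, add_zero, zero_add] at hs hne ⊢
    · exact ⟨trivial, trivial, trivial⟩
    · exact absurd (by linear_combination h - hs) h2
    · exact absurd (by linear_combination h - hs) h1
    · exact absurd hs h0
    · exact absurd (by linear_combination h - hs) h0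
    · exact absurd hs h1
    · exact absurd hs h2
    · exact absurd ⟨not_false, not_false, not_false⟩ hne
  ext i
  fin_cases i
  · simpa using hall.1
  · simpa using hall.2.1
  · simpa using hall.2.2

theorem min2 {a : Fin 2 → ℂ} (h : a 0 + a 1 = 0) (h0 : a 0 ≠ 0)
    (t : Finset (Fin 2)) (ht : t.Nonempty) (hs : ∑ i ∈ t, a i = 0) : t = Finset.univ := by
  have h1 : a 1 ≠ 0 := fun h1 => h0 (by rw [h1, add_zero] at h; exact h)
  have e : ∑ i ∈ t, a i = ∑ i, if i ∈ t then a i else 0 := by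
    rw [Finset.sum_ite_mem, Finset.univ_inter]
  rw [e, Fin.sum_univ_two] at hs
  have hne : ¬ (0 ∉ t ∧ 1 ∉ t) := by
    rintro ⟨x0, x1⟩
    obtain ⟨i, hi⟩ := ht
    fin_cases i
    · exact x0 hi
    · exact x1 hi
  have hall : 0 ∈ t ∧ 1 ∈ t := by
    by_cases x0 : (0 : Fin 2) ∈ t <;> by_cases x1 : (1 : Fin 2) ∈ t <;>
      simp only [x0, x1, if_true, if_false, add_zero, zero_add] at hs hne ⊢
    · exact ⟨trivial, trivial⟩
    · exact absurd hs h0
    · exact absurd hs h1
    · exact absurd ⟨not_false, not_false⟩ hne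
  ext i
  fin_cases i
  · simpa using hall.1
  · simpa using hall.2

/-- the relation `y - E(p) = 0` -/
noncomputable def two {S : Set ℝ} {d : ℕ} (y : K S) (p : K S × (Fin d → ℚ)) : Combination S d :=
  ⟨2, ![y, -1], ![0, p]⟩

theorem E_zero {S : Set ℝ} {d : ℕ} (l : Fin d → ℂ) : E S l 0 = 1 := by
  simp [E]

theorem two_min {S : Set ℝ} {d : ℕ} {l : Fin d → ℂ} {y : K S} {p : K S × (Fin d → ℚ)}
    (h : (y : ℂ) = E S l p) : IsMinimal l (two y p) := by
  have h1 : (y : ℂ) ≠ 0 := by rw [h]; exact Complex.exp_ne_zero _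
  constructor
  · show ∑ i : Fin 2, (((![y, -1] : Fin 2 → K S) i : K S) : ℂ) * E S l ((![0, p] : Fin 2 → _) i) = 0
    rw [Fin.sum_univ_two]
    simp only [Matrix.cons_val_zero, Matrix.cons_val_one]
    rw [E_zero, h]
    push_cast
    ring
  · refine min2 (a := fun i : Fin 2 => (((![y, -1] : Fin 2 → K S) i : K S) : ℂ) *
      E S l ((![0, p] : Fin 2 → _) i)) ?_ ?_
    · simp only [Matrix.cons_val_zero, Matrix.cons_val_one]
      rw [E_zero, h]
      push_cast
      ring
    · simp only [Matrix.cons_val_zero]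
      rw [E_zero, mul_one]
      exact h1

theorem two_diffs {S : Set ℝ} {d : ℕ} (y : K S) (p : K S × (Fin d → ℚ))
    (W : Submodule ℚ (K S × (Fin d → ℚ))) : diffs (two y p) ≤ W ↔ p ∈ W := by
  constructor
  · intro h
    have h1 : p - 0 ∈ diffs (two y p) := diff_mem (![0, p] : Fin 2 → _) 1 0
    rw [sub_zero] at h1
    exact h h1
  · intro h
    refine diffSpan_le (![0, p] : Fin 2 → _) W 0 fun i => ?_
    fin_cases i
    · simp
    · simpa using h

/-- the relation `y - ε E(q) - E(p) = 0` -/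
noncomputable def three {S : Set ℝ} {d : ℕ} (y ε : K S) (p q : K S × (Fin d → ℚ)) : Combination S d :=
  ⟨3, ![y, -ε, -1], ![0, q, p]⟩

theorem three_min {S : Set ℝ} {d : ℕ} {l : Fin d → ℂ} {y ε : K S} {p q : K S × (Fin d → ℚ)}
    (h : (y : ℂ) = E S l p + ε * E S l q) (hy : (y : ℂ) ≠ 0) (hε : (ε : ℂ) ≠ 0) :
    IsMinimal l (three y ε p q) := by
  have hsum : (((![y, -ε, -1] : Fin 3 → K S) 0 : K S) : ℂ) * E S l ((![0, q, p] : Fin 3 → _) 0) +
      (((![y, -ε, -1] : Fin 3 → K S) 1 : K S) : ℂ) * E S l ((![0, q, p] : Fin 3 → _) 1) +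
      (((![y, -ε, -1] : Fin 3 → K S) 2 : K S) : ℂ) * E S l ((![0, q, p] : Fin 3 → _) 2) = 0 := by
    simp only [Matrix.cons_val_zero, Matrix.cons_val_one, Matrix.cons_val]
    rw [E_zero, h]
    push_cast
    ring
  constructor
  · show ∑ i : Fin 3, (((![y, -ε, -1] : Fin 3 → K S) i : K S) : ℂ) *
      E S l ((![0, q, p] : Fin 3 → _) i) = 0
    rw [Fin.sum_univ_three]
    exact hsum
  · refine min3 (a := fun i : Fin 3 => (((![y, -ε, -1] : Fin 3 → K S) i : K S) : ℂ) *
      E S l ((![0, q, p] : Fin 3 → _) i)) hsum ?_ ?_ ?_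
    · simp only [Matrix.cons_val_zero]
      rw [E_zero, mul_one]
      exact hy
    · simp only [Matrix.cons_val_one, Matrix.cons_val_zero]
      refine mul_ne_zero ?_ (Complex.exp_ne_zero _)
      push_cast
      exact neg_ne_zero.2 hε
    · simp only [Matrix.cons_val]
      refine mul_ne_zero ?_ (Complex.exp_ne_zero _)
      push_cast
      exact neg_ne_zero.2 one_ne_zero

theorem three_diffs {S : Set ℝ} {d : ℕ} (y ε : K S) (p q : K S × (Fin d → ℚ))
    (W : Submodule ℚ (K S × (Fin d → ℚ))) : diffs (three y ε p q) ≤ W ↔ p ∈ W ∧ q ∈ W := by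
  constructor
  · intro h
    have h1 : p - 0 ∈ diffs (three y ε p q) := diff_mem (![0, q, p] : Fin 3 → _) 2 0
    have h2 : q - 0 ∈ diffs (three y ε p q) := diff_mem (![0, q, p] : Fin 3 → _) 1 0
    rw [sub_zero] at h1 h2
    exact ⟨h h1, h h2⟩
  · rintro ⟨h, h'⟩
    refine diffSpan_le (![0, q, p] : Fin 3 → _) W 0 fun i => ?_
    fin_cases i
    · simp
    · simpa using h'
    · simpa using h

theorem E_lpe (S : Set ℝ) (α : K S) (t : Fin 4 → ℚ) : E S lpe (α, t) =
      Complex.exp α * ((Real.pi ^ (t 0 : ℝ) * (Real.exp 1 ^ Real.exp 1) ^ (t 1 : ℝ) *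
        (Real.pi ^ Real.exp 1) ^ (t 2 : ℝ) * (Real.pi ^ Real.pi) ^ (t 3 : ℝ) : ℝ) : ℂ) := by
  have hpi := Real.pi_pos
  have he := Real.exp_pos 1
  rw [E, Complex.exp_add, Fin.sum_univ_four]
  congr 1
  rw [Real.rpow_def_of_pos hpi, ← Real.rpow_mul he.le, ← Real.rpow_mul hpi.le, ← Real.rpow_mul hpi.le,
    Real.rpow_def_of_pos he, Real.rpow_def_of_pos hpi, Real.rpow_def_of_pos hpi, Real.log_exp,
    ← Real.exp_add, ← Real.exp_add, ← Real.exp_add, Complex.ofReal_exp]
  congr 1
  simp only [lpe, Matrix.cons_val_zero, Matrix.cons_val_one, Matrix.cons_val]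
  push_cast
  ring


/-- the exponents without the coordinates from `k` on -/
def Z (S : Set ℝ) (k : ℕ) : Submodule ℚ (K S × (Fin 4 → ℚ)) where
  carrier := {p | ∀ j : Fin 4, k ≤ j.val → p.2 j = 0}
  zero_mem' := fun j _ => rfl
  add_mem' := by
    intro p q hp hq j hj
    rw [Prod.snd_add, Pi.add_apply, hp j hj, hq j hj, add_zero]
  smul_mem' := by
    intro r p hp j hj
    rw [Prod.smul_snd, Pi.smul_apply, hp j hj, smul_zero]

theorem Z_mono (S : Set ℝ) {k m : ℕ} (h : k ≤ m) : Z S k ≤ Z S m :=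
  fun _ hp j hj => hp j (h.trans hj)

/-- the exponents with rational first coordinate -/
def Qr (S : Set ℝ) : Submodule ℚ (K S × (Fin 4 → ℚ)) where
  carrier := {p | ∃ q : ℚ, p.1 = (q : K S)}
  zero_mem' := ⟨0, by simp⟩
  add_mem' := by
    rintro p q ⟨a, ha⟩ ⟨b, hb⟩
    exact ⟨a + b, by rw [Prod.fst_add, ha, hb]; push_cast; rfl⟩
  smul_mem' := by
    rintro r p ⟨a, ha⟩
    exact ⟨r * a, by rw [Prod.smul_fst, ha, Rat.smul_def]; push_cast; rfl⟩

/-- the exponent of the `k`-th number -/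
noncomputable def pe (S : Set ℝ) (k : Fin 4) : K S × (Fin 4 → ℚ) := (0, Pi.single k 1)

theorem pe_mem (S : Set ℝ) (k : Fin 4) : pe S k ∈ Z S (k.val + 1) := by
  intro j hj
  have : j ≠ k := fun h => by rw [h] at hj; omega
  simp [pe, this]

theorem pe_notMem (S : Set ℝ) (k : Fin 4) : pe S k ∉ Z S k.val := by
  intro h
  have := h k le_rfl
  simp [pe] at this

theorem pe_Qr (S : Set ℝ) (k : Fin 4) : pe S k ∈ Qr S := ⟨0, by simp [pe]⟩

theorem five {S : Set ℝ} (hS : UltraLiouville S)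
    (h0 : ∃ y : K S, (y : ℂ) = (Real.pi + Real.exp 1 : ℝ) ∨ (y : ℂ) = (Real.pi - Real.exp 1 : ℝ) ∨
      (y : ℂ) = (Real.pi * Real.exp 1 : ℝ))
    (h1 : ∃ y : K S, (y : ℂ) = (Real.exp 1 ^ Real.exp 1 : ℝ))
    (h2 : ∃ y : K S, (y : ℂ) = (Real.pi ^ Real.exp 1 : ℝ))
    (h3 : ∃ y : K S, (y : ℂ) = (Real.pi ^ Real.pi : ℝ))
    (R : Combination S 4) (hR : IsMinimal lpe R) (i j : Fin R.n) :
    ∃ q : ℚ, (R.expo i).1 - (R.expo j).1 = (q : K S) := by
  have hpi := Real.pi_pos
  have he := Real.exp_pos 1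
  have E0 : E S lpe (pe S 0) = (Real.pi : ℝ) := by
    rw [pe, E_lpe]
    simp
  have E1 : E S lpe (pe S 1) = (Real.exp 1 ^ Real.exp 1 : ℝ) := by
    rw [pe, E_lpe]
    simp
  have E2 : E S lpe (pe S 2) = (Real.pi ^ Real.exp 1 : ℝ) := by
    rw [pe, E_lpe]
    simp
  have E3 : E S lpe (pe S 3) = (Real.pi ^ Real.pi : ℝ) := by
    rw [pe, E_lpe]
    simp
  have Ee : E S lpe ((1 : K S), (0 : Fin 4 → ℚ)) = (Real.exp 1 : ℝ) := by
    rw [E_lpe]
    simp
  have Epe : E S lpe ((1 : K S), (Pi.single 0 1 : Fin 4 → ℚ)) = (Real.pi * Real.exp 1 : ℝ) := by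
    rw [E_lpe]
    simp [mul_comm]
  have h1Z : ((1 : K S), (0 : Fin 4 → ℚ)) ∈ Z S 1 := fun j _ => rfl
  have h1Q : ((1 : K S), (0 : Fin 4 → ℚ)) ∈ Qr S := ⟨1, by simp⟩
  -- the first relation
  obtain ⟨R0, hR0, hR0Z, hR0N, hR0Q⟩ : ∃ R0 : Combination S 4, IsMinimal lpe R0 ∧ diffs R0 ≤ Z S 1 ∧
      ¬ diffs R0 ≤ Z S 0 ∧ diffs R0 ≤ Qr S := by
    obtain ⟨y, hy | hy | hy⟩ := h0
    · refine ⟨three y 1 (pe S 0) (1, 0), three_min ?_ ?_ ?_, ?_, ?_, ?_⟩
      · rw [hy, E0, Ee]
        push_cast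
        ring
      · rw [hy]
        exact_mod_cast (add_pos hpi he).ne'
      · push_cast
        exact one_ne_zero
      · exact (three_diffs _ _ _ _ _).2 ⟨pe_mem S 0, h1Z⟩
      · exact fun h => pe_notMem S 0 ((three_diffs _ _ _ _ _).1 h).1
      · exact (three_diffs _ _ _ _ _).2 ⟨pe_Qr S 0, h1Q⟩
    · refine ⟨three y (-1) (pe S 0) (1, 0), three_min ?_ ?_ ?_, ?_, ?_, ?_⟩
      · rw [hy, E0, Ee]
        push_cast
        ring
      · rw [hy]
        have h5 : Real.exp 1 < Real.pi := Real.exp_one_lt_three.trans Real.pi_gt_three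
        exact_mod_cast (sub_pos.2 h5).ne'
      · push_cast
        exact neg_ne_zero.2 one_ne_zero
      · exact (three_diffs _ _ _ _ _).2 ⟨pe_mem S 0, h1Z⟩
      · exact fun h => pe_notMem S 0 ((three_diffs _ _ _ _ _).1 h).1
      · exact (three_diffs _ _ _ _ _).2 ⟨pe_Qr S 0, h1Q⟩
    · refine ⟨two y (1, Pi.single 0 1), two_min (by rw [hy, Epe]), ?_, ?_, ?_⟩
      · refine (two_diffs _ _ _).2 fun j hj => ?_
        have : j ≠ 0 := fun h => by rw [h] at hj; simp at hj
        simp [this]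
      · intro h
        have h5 := (two_diffs _ _ _).1 h 0 (by simp)
        simp at h5
      · exact (two_diffs _ _ _).2 ⟨1, by simp⟩
  obtain ⟨y1, hy1⟩ := h1
  obtain ⟨y2, hy2⟩ := h2
  obtain ⟨y3, hy3⟩ := h3
  set F : ℕ → Combination S 4 := fun j => match j with
    | 0 => R0
    | 1 => two y1 (pe S 1)
    | 2 => two y2 (pe S 2)
    | 3 => two y3 (pe S 3)
    | _ => R with hF
  have hmin : ∀ j < 5, IsMinimal lpe (F j) := by
    intro j hj
    interval_cases j
    · exact hR0
    · exact two_min (by rw [hy1, E1])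
    · exact two_min (by rw [hy2, E2])
    · exact two_min (by rw [hy3, E3])
    · exact hR
  have hZ : ∀ j < 4, diffs (F j) ≤ Z S (j + 1) ∧ ¬ diffs (F j) ≤ Z S j ∧ diffs (F j) ≤ Qr S := by
    intro j hj
    interval_cases j
    · exact ⟨hR0Z, hR0N, hR0Q⟩
    · exact ⟨(two_diffs _ _ _).2 (pe_mem S 1), fun h => pe_notMem S 1 ((two_diffs _ _ _).1 h),
        (two_diffs _ _ _).2 (pe_Qr S 1)⟩
    · exact ⟨(two_diffs _ _ _).2 (pe_mem S 2), fun h => pe_notMem S 2 ((two_diffs _ _ _).1 h),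
        (two_diffs _ _ _).2 (pe_Qr S 2)⟩
    · exact ⟨(two_diffs _ _ _).2 (pe_mem S 3), fun h => pe_notMem S 3 ((two_diffs _ _ _).1 h),
        (two_diffs _ _ _).2 (pe_Qr S 3)⟩
  have hsum : ∀ j ≤ 4, (⨆ i ∈ Finset.range j, diffs (F i)) ≤ Z S j := by
    intro j hj
    refine iSup₂_le fun i hi => ?_
    have hij := Finset.mem_range.1 hi
    exact (hZ i (by omega)).1.trans (Z_mono S (by omega))
  have hfin : diffs R ≤ ⨆ i ∈ Finset.range 4, diffs (F i) := by
    by_contra hcon
    have h5 := seq_bound (expV hS lpe) _ le_rfl 5 (fun j => (F j).n) (fun j => (F j).coeff)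
      (fun j => (F j).expo) hmin (by
        intro j hj
        by_cases hj4 : j < 4
        · exact fun h => (hZ j hj4).2.1 (h.trans (hsum j hj4.le))
        · have : j = 4 := by omega
          subst this
          exact hcon)
    omega
  have hQ : diffs R ≤ Qr S := hfin.trans (iSup₂_le fun i hi => (hZ i (Finset.mem_range.1 hi)).2.2)
  obtain ⟨q, hq⟩ := hQ (diff_mem R.expo i j)
  exact ⟨q, hq⟩

/-- (1): at most `d` minimal relations whose difference spaces together contain the difference space of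
every minimal relation -/
def FewGenerators (S : Set ℝ) {d : ℕ} (l : Fin d → ℂ) : Prop :=
  ∃ G : List (Combination S d), G.length ≤ d ∧ (∀ R ∈ G, IsMinimal l R) ∧
    ∀ R, IsMinimal l R → diffs R ≤ ⨆ R' ∈ G, diffs R'

/-- (2): a sequence of `N` minimal relations in which no difference space is contained in the sum of the
previous ones has `N ≤ d` -/
def SequenceBound (S : Set ℝ) {d : ℕ} (l : Fin d → ℂ) : Prop :=
  ∀ (N : ℕ) (R : ℕ → Combination S d), (∀ j < N, IsMinimal l (R j)) →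
    (∀ j < N, ¬ diffs (R j) ≤ ⨆ i ∈ Finset.range j, diffs (R i)) → N ≤ d

/-- (3): all minimal relations with at least two different exponents have the same difference space -/
def OneSpace (S : Set ℝ) {d : ℕ} (l : Fin d → ℂ) : Prop :=
  ∀ R R' : Combination S d, IsMinimal l R → IsMinimal l R' → diffs R ≠ ⊥ → diffs R' ≠ ⊥ →
    diffs R = diffs R'

/-- (4): the difference spaces of the minimal relations with at most `k` terms lie in one space of
dimension at most `(k - 1) d` -/
def ShortBound (S : Set ℝ) {d : ℕ} (l : Fin d → ℂ) : Prop :=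
  ∀ k : ℕ, ∃ W : Submodule ℚ (K S × (Fin d → ℚ)), FiniteDimensional ℚ W ∧ finrank ℚ W ≤ (k - 1) * d ∧
    ∀ R : Combination S d, R.n ≤ k → IsMinimal l R → diffs R ≤ W

/-- `E(α, t) = e ^ α π ^ t₀ (e ^ e) ^ t₁ (π ^ e) ^ t₂ (π ^ π) ^ t₃` for the exponents `lpe` -/
def IsProduct (S : Set ℝ) : Prop :=
  ∀ (α : K S) (t : Fin 4 → ℚ), E S lpe (α, t) =
    Complex.exp α * ((Real.pi ^ (t 0 : ℝ) * (Real.exp 1 ^ Real.exp 1) ^ (t 1 : ℝ) *
      (Real.pi ^ Real.exp 1) ^ (t 2 : ℝ) * (Real.pi ^ Real.pi) ^ (t 3 : ℝ) : ℝ) : ℂ)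

/-- the real number `x` is in `K` -/
def InK (S : Set ℝ) (x : ℝ) : Prop := ∃ y : K S, (y : ℂ) = (x : ℂ)

/-- (5): if `π + e` or `π - e` or `π e` is in `K`, and `e ^ e`, `π ^ e`, `π ^ π` are in `K`, then the first
coordinates of the exponents of every minimal relation have rational differences -/
def RationalDifferences (S : Set ℝ) : Prop :=
  InK S (Real.pi + Real.exp 1) ∨ InK S (Real.pi - Real.exp 1) ∨ InK S (Real.pi * Real.exp 1) →
    InK S (Real.exp 1 ^ Real.exp 1) → InK S (Real.pi ^ Real.exp 1) → InK S (Real.pi ^ Real.pi) →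
      ∀ R : Combination S 4, IsMinimal lpe R → ∀ i j, ∃ q : ℚ,
        (R.expo i).1 - (R.expo j).1 = (q : K S)

theorem result (S : Set ℝ) (hS : UltraLiouville S) :
    (∀ (d : ℕ) (l : Fin d → ℂ), FewGenerators S l ∧ SequenceBound S l ∧ ShortBound S l) ∧
    (∀ l : Fin 1 → ℂ, OneSpace S l) ∧ IsProduct S ∧ RationalDifferences S := by
  refine ⟨fun d l => ⟨generators hS l, ?_, ?_⟩, ?_, E_lpe S, ?_⟩
  · intro N R hR hnew
    exact seq_bound (expV hS l) _ le_rfl N (fun j => (R j).n) (fun j => (R j).coeff)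
      (fun j => (R j).expo) hR hnew
  · intro k
    obtain ⟨W, h1, h2, h3⟩ := short (expV hS l) _ le_rfl k
    exact ⟨W, h1, h2, fun R hRk hR => h3 R.n hRk R.coeff R.expo hR⟩
  · intro l R R' hR hR' hne hne'
    exact le_antisymm (same_span (expV hS l) _ le_rfl hR' hR hne')
      (same_span (expV hS l) _ le_rfl hR hR' hne)
  · intro h0 h1 h2 h3 R hR i j
    have h0' : ∃ y : K S, (y : ℂ) = (Real.pi + Real.exp 1 : ℝ) ∨ (y : ℂ) = (Real.pi - Real.exp 1 : ℝ) ∨
        (y : ℂ) = (Real.pi * Real.exp 1 : ℝ) := by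
      rcases h0 with ⟨y, hy⟩ | ⟨y, hy⟩ | ⟨y, hy⟩
      · exact ⟨y, Or.inl hy⟩
      · exact ⟨y, Or.inr (Or.inl hy)⟩
      · exact ⟨y, Or.inr (Or.inr hy)⟩
    exact five hS h0' h1 h2 h3 R hR i j

end Pool.Agent.Results.MP_a49cf6_nt.IndependentRelations
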