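import Mathlib
import Pool.Agent.Run7.h103.UN.Near

set_option autoImplicit false

/-!
# A measure of transcendence over the predictable numbers, in all bases but one

Let `z` be a transcendental number which is not a U-number, for instance `e`, `π` or the logarithm of
a rational number, and let `F` be a finite set of pairwise multiplicatively independent bases, for
instance `{2, 10}`. At the scale `(M, K)` a real number `x` is predictable in base `b` if some
automaton with at most `K` states which reads the digits of `x` in base `b` and predicts the next one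
makes at most `A log (M / (K + 1))` errors among the first `M` digits; below it is enough that some
`(m x + l) / q` with integers `m ≠ 0`, `l`, `q` is predictable, up to `e ^ (- ε M)`, where `m` and `q`
are at most `e ^ (A (K + 1))`.

For all `k`, `d`, `A` and `ε > 0` there is `R` such that for all `M ≥ R (K + 1)` and for all bases `b`
in `F` with at most one exception the following holds. Let `x_1, ..., x_k` be real numbers, of
absolute value at most `e ^ (A (K + 1))`, which are predictable in base `b` in this sense, and let
`Q (X) = ∑ P_j (x_1, ..., x_k) X ^ j`, where the `P_j` are integer polynomials of degree at most `d` in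
each variable with coefficients at most `e ^ (A (K + 1))`. If one of the coefficients of `Q` is at
least `e ^ (- A (K + 1))` in absolute value, then `|Q (z)| > e ^ (- ε M)`.

So for all bases `b` in `F` with at most one exception and for EVERY real number `t` with
`|t| ≤ e ^ (A (K + 1))`, one of the numbers `t + z` and `t z` is not predictable in base `b` in this
sense, for instance one of `π + e` and `π e`; more generally every monic real polynomial with the root
`z` has a coefficient which is not predictable. The constant `R` and the exceptional base do not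
depend on `t` or on the polynomial.

Proof. If there are such equations for `z` in two bases for a sequence of scales, then in the residue
field of the ring of bounded germs of sequences of real numbers `z` is algebraic over two rings of
represented germs which are linearly disjoint over the ring of germs of bounded rational numbers (see
`Pool.Agent.Run7.h103.UN`; the linear disjointness comes from the subspace theorem with moving forms).
So `z` is algebraic over the latter ring, and it is a U-number.
-/

namespace Pool.Agent.Results.MP_a49cf6_nt.MeasureOverPredictableNumbers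

open Pool.Agent.Run7.h103.PF Pool.Agent.Run7.h103.UN

/-- (1) Let `z` be a transcendental number which is not a U-number, `F` a finite set of pairwise
multiplicatively independent bases, and for `b` in `F` let `u_b` consist of `k` words of linear block
complexity over `{0, ..., b - 1}`. For all `d`, `A` and `ε > 0` there is `R` such that for all `M`,
`K` with `R (K + 1) ≤ M` and for all `b` in `F` with at most one exception: if `x_1, ..., x_k` have
predictable multiples in base `b` (`PredictableMultiple`) and absolute values at most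
`e ^ (A (K + 1))`, the integer polynomials `P_0, ..., P_d` in `k` variables have degree at most `d` in
each variable and coefficients at most `e ^ (A (K + 1))`, and one of the numbers `P_j (x)` is at least
`e ^ (- A (K + 1))` in absolute value, then `|∑ P_j (x) z ^ j| > e ^ (- ε M)`.

(2) In particular, for `z = e`, `π` or the logarithm of a rational number, for all `b` in `F` with at
most one exception, `|z ^ d + ∑_{j < d} c_j z ^ j| > e ^ (- ε M)` for all real numbers `c_j` with
predictable multiples in base `b` and absolute value at most `e ^ (A (K + 1))`.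

(3) And, for these `z`, for all `b` in `F` with at most one exception and for every real number `t`
with `|t| ≤ e ^ (A (K + 1))`, one of the numbers `t + z` and `t z` has no predictable multiple in base
`b`; for instance for `t = π` and `z = e`. -/
theorem result :
    (∀ z : ℝ, Transcendental ℚ z → ¬ UNumber z → ∀ F : Finset ℕ, (∀ b ∈ F, 2 ≤ b) →
      (∀ b ∈ F, ∀ c ∈ F, b ≠ c → Independent b c) → ∀ (k : ℕ) (C : ℝ) (u : ℕ → Fin k → ℕ → ℤ),
      (∀ b ∈ F, ∀ i, SimpleWord b C (u b i)) → ∀ (d : ℕ) (A ε : ℝ), 0 < ε →
      ∃ R : ℕ, ∀ M K : ℕ, R * (K + 1) ≤ M → ∃ c : ℕ, ∀ b ∈ F, b ≠ c →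
        ∀ (x : Fin k → ℝ) (a : Fin (d + 1) → (Fin k → Fin (d + 1)) → ℤ),
          (∀ i, PredictableMultiple b (u b i) A ε M K (x i)) →
          (∀ i, |x i| ≤ Real.exp (A * (K + 1))) → (∀ j, SmallCoeff A K (a j)) →
          (∃ j, Real.exp (-(A * (K + 1))) ≤ |value (a j) x|) →
          Real.exp (-(ε * M)) < |∑ j, value (a j) x * z ^ (j : ℕ)|) ∧
    (∀ z : ℝ, (z = Real.exp 1 ∨ z = Real.pi ∨ ∃ q : ℚ, 0 < q ∧ q ≠ 1 ∧ z = Real.log q) →
      ∀ F : Finset ℕ, (∀ b ∈ F, 2 ≤ b) → (∀ b ∈ F, ∀ c ∈ F, b ≠ c → Independent b c) →
      ∀ (d : ℕ) (C : ℝ) (u : ℕ → Fin d → ℕ → ℤ), (∀ b ∈ F, ∀ j, SimpleWord b C (u b j)) →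
      ∀ A ε : ℝ, 0 < ε →
      ∃ R : ℕ, ∀ M K : ℕ, R * (K + 1) ≤ M → ∃ c : ℕ, ∀ b ∈ F, b ≠ c →
        ∀ x : Fin d → ℝ, (∀ j, PredictableMultiple b (u b j) A ε M K (x j)) →
          (∀ j, |x j| ≤ Real.exp (A * (K + 1))) →
          Real.exp (-(ε * M)) < |z ^ d + ∑ j, x j * z ^ (j : ℕ)|) ∧
    (∀ z : ℝ, (z = Real.exp 1 ∨ z = Real.pi ∨ ∃ q : ℚ, 0 < q ∧ q ≠ 1 ∧ z = Real.log q) →
      ∀ F : Finset ℕ, (∀ b ∈ F, 2 ≤ b) → (∀ b ∈ F, ∀ c ∈ F, b ≠ c → Independent b c) →
      ∀ (C : ℝ) (u v : ℕ → ℕ → ℤ), (∀ b ∈ F, SimpleWord b C (u b)) →
      (∀ b ∈ F, SimpleWord b C (v b)) → ∀ A ε : ℝ, 0 < ε →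
      ∃ R : ℕ, ∀ M K : ℕ, R * (K + 1) ≤ M → ∃ c : ℕ, ∀ b ∈ F, b ≠ c →
        ∀ t : ℝ, |t| ≤ Real.exp (A * (K + 1)) →
          ¬ PredictableMultiple b (u b) A ε M K (t + z) ∨
          ¬ PredictableMultiple b (v b) A ε M K (t * z)) := by
  refine ⟨fun z hz hU F hF2 hF k C u hu d A ε hε => measure_allN F hF2 hF u hu hz hU d A hε,
    fun z hz F hF2 hF d C u hu A ε hε => ?_, fun z hz F hF2 hF C u v hu hv A ε hε => ?_⟩
  · obtain ⟨hz1, hz2⟩ := special hz
    obtain ⟨R, -, hR⟩ := monic_all F hF2 hF u hu hz1 hz2 A hε
    exact ⟨R, hR⟩
  · obtain ⟨hz1, hz2⟩ := special hz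
    set B : ℝ := |A| + abs (1 + |z|) with hB
    have hAB : A ≤ B := by
      have := le_abs_self A
      have := abs_nonneg (1 + |z|)
      rw [hB]
      linarith
    obtain ⟨R, hR1, hR⟩ := monic_all F hF2 hF (d := 2) (fun b => ![v b, u b]) (C := C) (by
      intro b hb i
      fin_cases i
      · exact hv b hb
      · exact hu b hb) hz1 hz2 B hε
    refine ⟨R, fun M K hMK => ?_⟩
    have hlog := log_nonneg_of hR1 hMK
    obtain ⟨c, hc⟩ := hR M K hMK
    refine ⟨c, fun b hb hbc t ht => ?_⟩
    by_contra hcon
    push Not at hcon
    obtain ⟨h1, h2⟩ := hcon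
    have hone : (1 : ℝ) ≤ Real.exp (|A| * (K + 1)) := Real.one_le_exp (by positivity)
    have ht' : |t| ≤ Real.exp (|A| * (K + 1)) := ht.trans (exp_mono (le_abs_self A) K)
    have hz0 := abs_nonneg z
    have hBe := exp_const (c := 1 + |z|) |A| K
    have g := hc b hb hbc ![t * z, -(t + z)] (by
      intro i
      fin_cases i
      · exact h2.mono_A hAB hlog
      · exact (h1.mono_A hAB hlog).neg) (by
      intro i
      fin_cases i
      · change |t * z| ≤ _
        rw [abs_mul]
        nlinarith
      · change |-(t + z)| ≤ _
        rw [abs_neg]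
        refine (abs_add_le _ _).trans ?_
        nlinarith)
    have e : z ^ 2 + ∑ j : Fin 2, (![t * z, -(t + z)] : Fin 2 → ℝ) j * z ^ (j : ℕ) = 0 := by
      rw [Fin.sum_univ_two]
      simp only [Matrix.cons_val_zero, Matrix.cons_val_one, Fin.val_zero, Fin.val_one]
      ring
    rw [e, abs_zero] at g
    exact absurd g (not_lt.2 (Real.exp_pos _).le)

end Pool.Agent.Results.MP_a49cf6_nt.MeasureOverPredictableNumbers
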