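import Mathlib
import Pool.Agent.Run7.h123.LC.RC
import Pool.Agent.Run7.h123.LC.ExpM
import Pool.Agent.Run7.h123.LC.One
import Pool.Agent.Run7.h123.LC.Poly

set_option autoImplicit false

/-!
# Polynomials in one number and exponentials over the fields of numbers with simple expansions

Let `x_1, …, x_n` be real numbers with a measure of algebraic independence which is polynomial in the
height for every degree, for instance `e^(α_1), …, e^(α_n)` with real algebraic numbers `α_i` which are
linearly independent over `ℚ`, or `π`, or `log q`. For all bases `b` outside a group of rank at most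
`n` they are algebraically independent over the field `K_b` of the real numbers algebraic over the
numbers with simple expansions in bases dependent on `b`. We describe, for such `b` and for any real
number `t` (`π`, `e^e`, `π^π`, …), all polynomials `F` over `K_b` with `F(t, x) ∈ K_b`: up to a constant
they are the multiples of one irreducible polynomial. In particular at most one of the numbers
`t + P(x)`, `t Q(x)` is in `K_b`, apart from the trivial coincidences.
-/

namespace Pool.Agent.Results.MP_a49cf6_nt.PolynomialsOverSimpleFields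

/-- a measure of algebraic independence, polynomial in the height for every degree -/
def Measure {n : ℕ} (x : Fin n → ℝ) : Prop :=
  ∀ d : ℕ, ∃ κ c : ℝ, 0 < κ ∧ 0 < c ∧ ∀ P : MvPolynomial (Fin n) ℤ, P ≠ 0 → P.totalDegree ≤ d →
    ∀ H : ℝ, (∀ s, |((P.coeff s : ℤ) : ℝ)| ≤ H) → c * H ^ (-κ) ≤ |MvPolynomial.aeval x P|

/-- the number of different blocks of length `m` in the sequence `w` -/
noncomputable def blocks {A : Type} (w : ℕ → A) (m : ℕ) : ℕ :=
  (Set.range fun i => fun j : Fin m => w (i + j)).ncard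

/-- the digit with index `k + 1` after the point in the base `b` expansion of `x` -/
noncomputable def digit (b : ℕ) (x : ℝ) (k : ℕ) : ℤ := ⌊x * (b : ℝ) ^ (k + 1)⌋ % (b : ℤ)

/-- the group of the positive rational numbers `u` such that `u ^ m = b ^ k` for some integers
`m ≥ 1` and `k` -/
def group (b : ℕ) : Subgroup ℚˣ := Pool.Agent.Run7.h123.LC.rad b

lemma mem_group {b : ℕ} {u : ℚˣ} : u ∈ group b ↔ 0 < (u : ℚ) ∧
    ∃ (m : ℕ) (k : ℤ), 1 ≤ m ∧ (u : ℚ) ^ m = (b : ℚ) ^ k := Iff.rfl

/-- the sums of the series `∑ γ(w_0) ⋯ γ(w_{k-1}) c(w_k)`, where the `w_k` are in a finite set `A`,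
`γ(a)` and `c(a)` are rational, `|γ(a)| < 1`, `|γ(a)|` is in the group of `b` and the sequence `w` has
at most `C m` different blocks of length `m`, for all `m ∈ S` -/
def Series (S : Set ℕ) (b : ℕ) : Set ℝ :=
  {x | ∃ (A : Type) (_ : Finite A) (γ c : A → ℚ) (w : ℕ → A) (C : ℝ),
    (∀ a, ∃ u ∈ group b, |γ a| = ((u : ℚˣ) : ℚ)) ∧ (∀ a, |γ a| < 1) ∧
    HasSum (fun n => (∏ k ∈ Finset.range n, (γ (w k) : ℝ)) * (c (w n) : ℝ)) x ∧
    ∀ m ∈ S, (blocks w m : ℝ) ≤ C * m}

/-- the field of the real numbers which are algebraic over the field generated by `Series S b` -/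
noncomputable def K (S : Set ℕ) (b : ℕ) : Subfield ℝ :=
  (algebraicClosure (Subfield.closure (Series S b)) ℝ).toSubfield

lemma K_eq (S : Set ℕ) (b : ℕ) :
    K S b = Pool.Agent.Run7.h123.LC.RC (Subfield.closure (Series S b)) := rfl

/-- multiplicatively independent integers -/
def Independent {r : ℕ} (b : Fin r → ℕ) : Prop :=
  ∀ k : Fin r → ℤ, ∏ i, (b i : ℚ) ^ k i = 1 → k = 0

section

variable (F : Type) [Field F] [Algebra F ℝ]

/-- `y` is (the real number of) an element of the field `F`; for a subfield `F` of `ℝ`: `y ∈ F` -/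
def In (y : ℝ) : Prop := ∃ c : F, y = algebraMap F ℝ c

variable {F}

/-- the value at `x` of a polynomial over `F` -/
noncomputable def value {n : ℕ} (x : Fin n → ℝ) (P : MvPolynomial (Fin n) F) : ℝ :=
  MvPolynomial.aeval x P

/-- the value at `(t, x)` of a polynomial in `T` whose coefficients are polynomials over `F` in
`X_1, …, X_n` -/
noncomputable def value₁ {n : ℕ} (t : ℝ) (x : Fin n → ℝ)
    (P : Polynomial (MvPolynomial (Fin n) F)) : ℝ := P.eval₂ (MvPolynomial.aeval x).toRingHom t

variable (F)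

/-- For every real number `t` there is a polynomial `G` in `T, X_1, …, X_n` over `F`, zero or
irreducible, such that for all polynomials `P` over `F`: `P(t, x) ∈ F` if and only if `G` divides
`P - c` for some `c ∈ F`. -/
def OneRelation {n : ℕ} (x : Fin n → ℝ) : Prop :=
  ∀ t : ℝ, ∃ G : Polynomial (MvPolynomial (Fin n) F), (G = 0 ∨ Irreducible G) ∧
    ∀ P : Polynomial (MvPolynomial (Fin n) F),
      In F (value₁ t x P) ↔ ∃ c : F, G ∣ P - Polynomial.C (MvPolynomial.C c)

/-- Let `t ≠ 0` be real and let `P, P', Q, Q'` be polynomials over `F` in `n` variables, `Q ≠ 0`. If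
`t + P(x)` and `t + P'(x)` are in `F` then `P - P'` is constant; if `t Q(x)` and `t Q'(x)` are in `F` then
`Q' = c Q` for some `c ∈ F`; if `t + P(x)` and `t Q(x)` are in `F` then `Q` is constant. -/
def SumsAndProducts {n : ℕ} (x : Fin n → ℝ) : Prop :=
  ∀ t : ℝ, t ≠ 0 → ∀ P P' Q Q' : MvPolynomial (Fin n) F, Q ≠ 0 →
    (In F (t + value x P) → In F (t + value x P') → ∃ c : F, P - P' = MvPolynomial.C c) ∧
    (In F (t * value x Q) → In F (t * value x Q') → ∃ c : F, Q' = MvPolynomial.C c * Q) ∧
    (In F (t + value x P) → In F (t * value x Q) → ∃ c : F, Q = MvPolynomial.C c)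

/-- Let `t_1, …, t_s` be real numbers and let `P_ji` (`0 ≤ i, j ≤ s`) be polynomials over `F`. If all
`s + 1` numbers `y_j = P_j0(x) + P_j1(x) t_1 + ⋯ + P_js(x) t_s` are in `F`, then the determinant of
the matrix with the rows `(P_j0 - y_j, P_j1, …, P_js)` is zero. -/
def SeveralNumbers {n : ℕ} (x : Fin n → ℝ) : Prop :=
  ∀ (s : ℕ) (t : Fin s → ℝ) (P : Fin (s + 1) → Fin (s + 1) → MvPolynomial (Fin n) F)
    (y : Fin (s + 1) → F),
    (∀ j, value x (P j 0) + ∑ i : Fin s, value x (P j i.succ) * t i = algebraMap F ℝ (y j)) →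
    (Matrix.of fun j i => P j i - if i = 0 then MvPolynomial.C (y j) else 0).det = 0

lemma rel_of {n : ℕ} {x : Fin n → ℝ} (hx : AlgebraicIndependent F x) : OneRelation F x := by
  intro t
  obtain ⟨G, hG, hF⟩ := Pool.Agent.Run7.h123.LC.principal
    (MvPolynomial.aeval x : MvPolynomial (Fin n) F →ₐ[F] ℝ).toRingHom (fun a b hab => hx hab) t
  refine ⟨G, hG, fun P => ⟨?_, ?_⟩⟩
  · rintro ⟨c, hc⟩
    refine ⟨c, ?_⟩
    rw [← hF, Polynomial.eval₂_sub, Polynomial.eval₂_C]
    change value₁ t x P - MvPolynomial.aeval x (MvPolynomial.C c) = 0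
    rw [MvPolynomial.aeval_C, hc, sub_self]
  · rintro ⟨c, hc⟩
    rw [← hF, Polynomial.eval₂_sub, Polynomial.eval₂_C] at hc
    change value₁ t x P - MvPolynomial.aeval x (MvPolynomial.C c) = 0 at hc
    rw [MvPolynomial.aeval_C, sub_eq_zero] at hc
    exact ⟨c, hc⟩

lemma sums_of {n : ℕ} {x : Fin n → ℝ} (hx : AlgebraicIndependent F x) : SumsAndProducts F x := by
  intro t ht P P' Q Q' hQ
  refine ⟨?_, ?_, ?_⟩
  · rintro ⟨c, hc⟩ ⟨c', hc'⟩
    exact ⟨_, Pool.Agent.Run7.h123.LC.sums hx hc hc'⟩
  · rintro ⟨c, hc⟩ ⟨c', hc'⟩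
    exact Pool.Agent.Run7.h123.LC.products hx ht hQ hc hc'
  · rintro ⟨c, hc⟩ ⟨c', hc'⟩
    by_contra hcon
    push Not at hcon
    exact Pool.Agent.Run7.h123.LC.sum_product hx ht hcon hc hc'

end

/-- (0) Families with a measure: exponentials of real algebraic numbers which are linearly independent
over `ℚ`; `π`; logarithms of rational numbers.

Let `x_1, …, x_n` be real numbers with a measure and `S` an infinite set of integers. There are
`k ≤ n` multiplicatively independent integers `c_1, …, c_k ≥ 2` such that for all `b ≥ 2` for which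
`c_1, …, c_k, b` are multiplicatively independent and `K = K S b`:

(1) `x_1, …, x_n` are algebraically independent over `K`;

(2) the polynomials `F` over `K` with `F(t, x) ∈ K`, where `t` is any real number, are described by one
irreducible polynomial (`OneRelation`);

(3) at most one of the numbers `t + P(x)`, `t Q(x)` is in `K`, apart from trivial coincidences
(`SumsAndProducts`);

(4) a condition for `s + 1` numbers linear in `s` real numbers `t_1, …, t_s` (`SeveralNumbers`).

(5) The field `K S b` contains all real numbers which have, in some base `d ≥ 2` with `d ^ m = b ^ k`,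
`m ≥ 1`, at most `C m` different blocks of `m` digits, `m ∈ S`, for some `C`. -/
theorem result :
    (∀ (n : ℕ) (α : Fin n → ℝ), (∀ i, IsAlgebraic ℚ (α i)) → LinearIndependent ℚ α →
      Measure fun i => Real.exp (α i)) ∧
    (Measure fun _ : Fin 1 => Real.pi) ∧
    (∀ q : ℚ, 0 < q → q ≠ 1 → Measure fun _ : Fin 1 => Real.log q) ∧
    (∀ (n : ℕ) (x : Fin n → ℝ), Measure x → ∀ S : Set ℕ, S.Infinite →
      ∃ (k : ℕ) (c : Fin k → ℕ), k ≤ n ∧ (∀ i, 2 ≤ c i) ∧ Independent c ∧
      ∀ b : ℕ, 2 ≤ b → Independent (Fin.snoc c b : Fin (k + 1) → ℕ) →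
        AlgebraicIndependent (K S b) x ∧ OneRelation (K S b) x ∧
          SumsAndProducts (K S b) x ∧ SeveralNumbers (K S b) x) ∧
    (∀ (S : Set ℕ) (b d m k : ℕ), 2 ≤ d → 1 ≤ m → d ^ m = b ^ k → ∀ x C : ℝ,
      (∀ m ∈ S, (blocks (digit d x) m : ℝ) ≤ C * m) → x ∈ K S b) := by
  refine ⟨fun n α hα hli => Pool.Agent.Run7.h123.LC.meas_exp α hα hli,
    Pool.Agent.Run7.h123.LC.meas_one (Pool.Agent.TH796.AL.Ai.measT_of (Or.inr (Or.inl rfl))),
    fun q hq hq1 => Pool.Agent.Run7.h123.LC.meas_one
      (Pool.Agent.TH796.AL.Ai.measT_of (Or.inr (Or.inr ⟨q, hq, hq1, rfl⟩))),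
    fun n x hx S hS => ?_, fun S b d m k hd hm h x C hC => ?_⟩
  · obtain ⟨k, c, hk, hc, hi, h⟩ := Pool.Agent.Run7.h123.LC.exceptional_RC hS hx
      (fun b => Subfield.closure (Series S b)) (fun b _ => le_rfl)
    refine ⟨k, c, hk, hc, hi, fun b hb hbi => ?_⟩
    have hx' : AlgebraicIndependent (K S b) x := h b hb hbi
    exact ⟨hx', rel_of _ hx', sums_of _ hx', fun s t P y hy =>
      Pool.Agent.Run7.h123.LC.several hx' t P y hy⟩
  · have hb0 : (d : ℚ) ≠ 0 := by
      have : d ≠ 0 := by omega
      exact_mod_cast this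
    have hu : ∃ u ∈ group b, (u : ℚ) = d := by
      refine ⟨Units.mk0 (d : ℚ) hb0, mem_group.2 ⟨?_, m, (k : ℤ), hm, ?_⟩, rfl⟩
      · rw [Units.val_mk0]
        positivity
      · rw [Units.val_mk0, zpow_natCast]
        exact_mod_cast h
    have h1 : x ∈ Subfield.closure (Series S b) :=
      Pool.Agent.Run7.h123.LC.digits_mem hd hu hC
    exact Pool.Agent.Run7.h123.LC.le_RC _ h1

end Pool.Agent.Results.MP_a49cf6_nt.PolynomialsOverSimpleFields
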